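import Pool.Agent.H418R2.PerfPoly

set_option autoImplicit false

/-!
The recognition problem for partitioned probe perfect graphs is NP-hard (under polynomial-time
many-one reductions, polynomial time being Mathlib's Turing machine notion).
-/

namespace Pool.Agent.Results.MP_96e1cb_lc.ProbePerfectNPHard

open Pool.Agent.NPC Pool.Agent.H418R2.Perf

/-- NP-hardness of the recognition of partitioned probe perfect graphs. -/
theorem result : NPHardP PartitionedProbePerfect :=
  hardPr_probe.toHardI.toNPHardP

end Pool.Agent.Results.MP_96e1cb_lc.ProbePerfectNPHard
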